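import Pool.Agent.Helper30.SY.St2

/-!
# Project SY, module INV: ranks and inversions
-/

set_option autoImplicit false

namespace Pool.Agent.Helper26.SY

open Finset Pool.Agent.Helper30.SY

variable {n : ℕ}

private theorem rk_mono {Q : Finset (Fin n)} {ρ : Fin n → ℕ} {x y : Fin n} (h : ρ x ≤ ρ y) :
    rk Q ρ x ≤ rk Q ρ y := by
  unfold rk
  apply card_le_card
  intro z hz
  rw [mem_filter] at hz ⊢
  exact ⟨hz.1, lt_of_lt_of_le hz.2 h⟩

private theorem rk_strict {Q : Finset (Fin n)} {ρ : Fin n → ℕ} {x y : Fin n} (hx : x ∈ Q)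
    (h : ρ x < ρ y) : rk Q ρ x < rk Q ρ y := by
  unfold rk
  apply card_lt_card
  rw [ssubset_iff_of_subset]
  · refine ⟨x, ?_, ?_⟩
    · rw [mem_filter]
      exact ⟨hx, h⟩
    · rw [mem_filter]
      intro h1
      exact lt_irrefl _ h1.2
  · intro z hz
    rw [mem_filter] at hz ⊢
    exact ⟨hz.1, lt_trans hz.2 h⟩

private theorem rk_lt {Q : Finset (Fin n)} {ρ : Fin n → ℕ} {x : Fin n} (hx : x ∈ Q) :
    rk Q ρ x < Q.card := by
  unfold rk
  apply card_lt_card
  rw [ssubset_iff_of_subset (filter_subset _ _)]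
  refine ⟨x, hx, ?_⟩
  rw [mem_filter]
  intro h1
  exact lt_irrefl _ h1.2

private theorem rk_inj {Q : Finset (Fin n)} {ρ : Fin n → ℕ}
    (hρ : ∀ x ∈ Q, ∀ y ∈ Q, ρ x = ρ y → x = y) : Set.InjOn (rk Q ρ) (Q : Set (Fin n)) := by
  intro x hx y hy hxy
  rcases lt_trichotomy (ρ x) (ρ y) with h | h | h
  · exact absurd hxy (ne_of_lt (rk_strict hx h))
  · exact hρ x hx y hy h
  · exact absurd hxy (ne_of_gt (rk_strict hy h))

private theorem card_low {Q : Finset (Fin n)} {ρ : Fin n → ℕ}
    (hρ : ∀ x ∈ Q, ∀ y ∈ Q, ρ x = ρ y → x = y) (j : ℕ) (hj : j ≤ Q.card) :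
    (Q.filter fun x => rk Q ρ x < j).card = j := by
  have hinj := rk_inj hρ
  have himg : Q.image (rk Q ρ) = range Q.card := by
    apply eq_of_subset_of_card_le
    · intro k hk
      rw [mem_image] at hk
      obtain ⟨x, hx, rfl⟩ := hk
      rw [mem_range]
      exact rk_lt hx
    · rw [card_range, card_image_of_injOn hinj]
  have h1 : (Q.filter fun x => rk Q ρ x < j).image (rk Q ρ) = range j := by
    ext k
    rw [mem_image, mem_range]
    constructor
    · rintro ⟨x, hx, rfl⟩
      exact (mem_filter.1 hx).2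
    · intro hk
      have h2 : k ∈ Q.image (rk Q ρ) := by
        rw [himg, mem_range]
        exact lt_of_lt_of_le hk hj
      rw [mem_image] at h2
      obtain ⟨x, hx, rfl⟩ := h2
      exact ⟨x, mem_filter.2 ⟨hx, hk⟩, rfl⟩
  have h2 : ((Q.filter fun x => rk Q ρ x < j).image (rk Q ρ)).card =
      (Q.filter fun x => rk Q ρ x < j).card := by
    apply card_image_of_injOn
    intro x hx y hy hxy
    exact hinj (filter_subset _ _ hx) (filter_subset _ _ hy) hxy
  rw [h1, card_range] at h2
  exact h2.symm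

/-- INV. -/
theorem hINV : StINV := by
  intro n Q S S' ρ hS hS' hd hρ
  set X := S.filter fun w => S.card ≤ rk Q ρ w with hX
  set U := S'.filter fun u => rk Q ρ u < S.card with hU
  set I := (S ×ˢ S').filter fun p => ρ p.2 < ρ p.1 with hI
  have hL := card_low hρ S.card (card_le_card hS)
  set L := Q.filter fun x => rk Q ρ x < S.card with hLd
  -- the elements of `S`
  have hSX : X.card + (S.filter fun w => ¬ S.card ≤ rk Q ρ w).card = S.card :=
    card_filter_add_card_filter_not _
  -- splitting of `L`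
  have hLS : (S.filter fun w => ¬ S.card ≤ rk Q ρ w) = L.filter fun x => x ∈ S := by
    ext x
    simp only [hLd, mem_filter, not_le]
    constructor
    · rintro ⟨h1, h2⟩
      exact ⟨⟨hS h1, h2⟩, h1⟩
    · rintro ⟨⟨_, h2⟩, h1⟩
      exact ⟨h1, h2⟩
  have hL2 : (L.filter fun x => x ∈ S).card + (L.filter fun x => ¬ x ∈ S).card = L.card :=
    card_filter_add_card_filter_not _
  have hx : (L.filter fun x => ¬ x ∈ S).card = X.card := by
    rw [hLS] at hSX
    omega
  -- `U` inside
  have hUsub : U ⊆ L.filter fun x => ¬ x ∈ S := by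
    intro u hu
    rw [hU, mem_filter] at hu
    rw [mem_filter, hLd, mem_filter]
    exact ⟨⟨hS' hu.1, hu.2⟩, fun h => Finset.disjoint_left.1 hd h hu.1⟩
  have hUX : U.card ≤ X.card := by
    rw [← hx]
    exact card_le_card hUsub
  have hrest : (L.filter fun x => ¬ x ∈ S) \ U ⊆ (Q \ S) \ S' := by
    intro x hx1
    rw [mem_sdiff, mem_filter, hLd, mem_filter, hU, mem_filter] at hx1
    obtain ⟨⟨⟨h1, h2⟩, h3⟩, h4⟩ := hx1
    rw [mem_sdiff, mem_sdiff]
    exact ⟨⟨h1, h3⟩, fun h => h4 ⟨h, h2⟩⟩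
  have hμ : ((Q \ S) \ S').card + S'.card + S.card = Q.card := by
    have h1 : (Q \ S).card + S.card = Q.card := card_sdiff_add_card_eq_card hS
    have h2 : S' ⊆ Q \ S := by
      intro x hx1
      rw [mem_sdiff]
      exact ⟨hS' hx1, fun h => Finset.disjoint_left.1 hd h hx1⟩
    have h3 := card_sdiff_add_card_eq_card h2
    omega
  have hxU : X.card ≤ U.card + ((Q \ S) \ S').card := by
    have h1 := card_le_card hrest
    have h2 := card_sdiff_add_card_eq_card hUsub
    omega
  -- inversions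
  have hinv : X.card * U.card ≤ I.card := by
    rw [← card_product]
    apply card_le_card
    rintro ⟨w, u⟩ hp
    rw [mem_product] at hp
    obtain ⟨h1, h2⟩ := hp
    simp only at h1 h2
    rw [hX, mem_filter] at h1
    rw [hU, mem_filter] at h2
    rw [hI, mem_filter, mem_product]
    refine ⟨⟨h1.1, h2.1⟩, ?_⟩
    by_contra h3
    have h4 := rk_mono (Q := Q) (not_lt.1 h3)
    simp only at h4
    omega
  have hμR : ((Q.card : ℝ) - S.card - S'.card) = (((Q \ S) \ S').card : ℝ) := by
    have : ((((Q \ S) \ S').card + S'.card + S.card : ℕ) : ℝ) = (Q.card : ℝ) := by rw [hμ]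
    push_cast at this
    linarith
  have hinvR : (X.card : ℝ) * U.card ≤ I.card := by exact_mod_cast hinv
  have hUXR : (U.card : ℝ) ≤ X.card := by exact_mod_cast hUX
  have hxUR : (X.card : ℝ) ≤ U.card + ((Q \ S) \ S').card := by exact_mod_cast hxU
  have hU0 : (0 : ℝ) ≤ U.card := Nat.cast_nonneg _
  have hm0 : (0 : ℝ) ≤ ((Q \ S) \ S').card := Nat.cast_nonneg _
  have hUs : (U.card : ℝ) ≤ Real.sqrt (I.card : ℝ) := by
    apply Real.le_sqrt_of_sq_le
    nlinarith
  rw [hμR]
  constructor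
  · linarith
  · linarith

end Pool.Agent.Helper26.SY
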